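import Mathlib

/-!
# Counting maps with collisions

Part 1: suppose `|c(P)| + t ≤ |P|`.  Choose for every value in `c(P)` one vertex of `P` with this
value; at least `t` vertices of `P` are not chosen; let `T` be a set of `t` of these.  So every `v ∈ T` has some
`g v ∈ P \ T` with `c (g v) = c v`.  There are at most `2^|P|` sets `T` and at most `|P|^t` maps `g : T → P`, and for
given `T`, `g` (with `g v ∉ T`) the map `c` is determined by its restriction to the complement of `T`, so there
are at most `N^(n-t)` such maps.  (Union bound, `Finset.card_biUnion_le`; then multiply by `N^t`, `t ≤ n` if there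
is such a `T`.)  Part 2: `N^t ≥ ((8 d)^(q+1))^t (2 (k+1))^t ≥ (8 d)^m (2 (k+1))^t`, `m ≤ 2^m`,
`m^t = m * m^(t-1) ≤ 2^m (2 (k+1))^(t-1)`.  Part 3: pad the lists with the number `N` to length `d`: an injection
to `Fin d → Fin (N+1)`.
-/

namespace Pool.Agent.Helper650_Lin

/-- maps determined by the complement of `T` -/
theorem la1_cntB (n N : ℕ) (T : Finset (Fin n)) (g : (a : Fin n) → a ∈ T → Fin n) :
    ((Finset.univ : Finset (Fin n → Fin N)).filter
      (fun c => ∀ v (hv : v ∈ T), g v hv ∉ T ∧ c (g v hv) = c v)).card ≤ N ^ (n - T.card) := by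
  classical
  have h1 : Fintype.card ({v : Fin n // v ∉ T} → Fin N) = N ^ (n - T.card) := by
    rw [Fintype.card_fun, Fintype.card_fin]
    congr 1
    rw [Fintype.card_subtype_compl, Fintype.card_fin]
    simp
  rw [← h1, ← Finset.card_univ]
  refine Finset.card_le_card_of_injOn (fun c => fun v : {v : Fin n // v ∉ T} => c v.1)
    (fun _ _ => Finset.mem_coe.2 (Finset.mem_univ _)) ?_
  intro c hc c' hc' h
  rw [Finset.mem_coe, Finset.mem_filter] at hc hc'
  have h2 : ∀ v : Fin n, v ∉ T → c v = c' v := fun v hv => congrFun h ⟨v, hv⟩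
  funext v
  by_cases hv : v ∈ T
  · obtain ⟨h3, h4⟩ := hc.2 v hv
    obtain ⟨-, h5⟩ := hc'.2 v hv
    rw [← h4, ← h5]
    exact h2 _ h3
  · exact h2 v hv

/-- Main statement 1 of this file. -/
theorem cnt (n N t : ℕ) (P : Finset (Fin n)) :
    ((Finset.univ : Finset (Fin n → Fin N)).filter
      (fun c => (P.image c).card + t ≤ P.card)).card * N ^ t ≤
        2 ^ P.card * P.card ^ t * N ^ n := by
  classical
  set S := (Finset.univ : Finset (Fin n → Fin N)).filter
      (fun c => (P.image c).card + t ≤ P.card) with hS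
  rcases S.eq_empty_or_nonempty with h0 | ⟨c0, hc0⟩
  · rw [h0, Finset.card_empty, Nat.zero_mul]
    exact Nat.zero_le _
  have htP : t ≤ P.card := by
    rw [hS, Finset.mem_filter] at hc0
    omega
  have htn : t ≤ n := htP.trans (by simpa using Finset.card_le_univ P)
  have hsub : S ⊆ (P.powersetCard t).biUnion (fun T => (T.pi (fun _ => P)).biUnion (fun g =>
      (Finset.univ : Finset (Fin n → Fin N)).filter
      (fun c => ∀ v (hv : v ∈ T), g v hv ∉ T ∧ c (g v hv) = c v))) := by
    intro c hc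
    rw [hS, Finset.mem_filter] at hc
    have hr : ∀ y : Fin N, ∀ _ : y ∈ P.image c, ∃ v : Fin n, v ∈ P ∧ c v = y := by
      intro y hy
      obtain ⟨v, hv, hvy⟩ := Finset.mem_image.1 hy
      exact ⟨v, hv, hvy⟩
    choose r hrP hrc using hr
    set R := (P.image c).attach.image (fun y => r y.1 y.2) with hR
    have hRc : R.card ≤ (P.image c).card :=
      Finset.card_image_le.trans (le_of_eq (Finset.card_attach))
    have hle : t ≤ (P \ R).card := by
      have h1 := Finset.le_card_sdiff R P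
      have h2 := hc.2
      omega
    obtain ⟨T, hT, hTt⟩ := Finset.exists_subset_card_eq hle
    have hTP : T ⊆ P := hT.trans Finset.sdiff_subset
    rw [Finset.mem_biUnion]
    refine ⟨T, Finset.mem_powersetCard.2 ⟨hTP, hTt⟩, ?_⟩
    rw [Finset.mem_biUnion]
    refine ⟨fun v hv => r (c v) (Finset.mem_image_of_mem c (hTP hv)), ?_, ?_⟩
    · rw [Finset.mem_pi]
      intro v hv
      exact hrP _ _
    · rw [Finset.mem_filter]
      refine ⟨Finset.mem_univ _, fun v hv => ⟨fun h => ?_, hrc _ _⟩⟩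
      have h1 := (Finset.mem_sdiff.1 (hT h)).2
      apply h1
      rw [hR, Finset.mem_image]
      exact ⟨⟨c v, Finset.mem_image_of_mem c (hTP hv)⟩, Finset.mem_attach _ _, rfl⟩
  have hcard : S.card ≤ 2 ^ P.card * (P.card ^ t * N ^ (n - t)) := by
    refine (Finset.card_le_card hsub).trans ?_
    refine Finset.card_biUnion_le.trans ?_
    have h1 : ∀ T ∈ P.powersetCard t, ((T.pi (fun _ => P)).biUnion (fun g =>
      (Finset.univ : Finset (Fin n → Fin N)).filter
      (fun c => ∀ v (hv : v ∈ T), g v hv ∉ T ∧ c (g v hv) = c v))).card ≤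
        P.card ^ t * N ^ (n - t) := by
      intro T hT
      rw [Finset.mem_powersetCard] at hT
      refine Finset.card_biUnion_le.trans ?_
      have h2 : ∀ g ∈ T.pi (fun _ => P), ((Finset.univ : Finset (Fin n → Fin N)).filter
          (fun c => ∀ v (hv : v ∈ T), g v hv ∉ T ∧ c (g v hv) = c v)).card ≤ N ^ (n - t) := by
        intro g _
        have := la1_cntB n N T g
        rwa [hT.2] at this
      refine (Finset.sum_le_sum h2).trans ?_
      rw [Finset.sum_const, Finset.card_pi, Finset.prod_const, hT.2, smul_eq_mul]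
    refine (Finset.sum_le_sum h1).trans ?_
    rw [Finset.sum_const, smul_eq_mul]
    refine Nat.mul_le_mul_right _ ?_
    rw [Finset.card_powersetCard]
    exact Nat.choose_le_two_pow _ _
  calc S.card * N ^ t ≤ 2 ^ P.card * (P.card ^ t * N ^ (n - t)) * N ^ t :=
        Nat.mul_le_mul_right _ hcard
    _ = 2 ^ P.card * P.card ^ t * (N ^ (n - t) * N ^ t) := by ring
    _ = _ := by rw [← pow_add, Nat.sub_add_cancel htn]

/-- Main statement 2 of this file. -/
theorem num_lin (d q k N m t : ℕ) (hd : 1 ≤ d) (ht : 1 ≤ t) (hm : m ≤ 2 * k + 1)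
    (hmt : m ≤ (q + 1) * t) (hN : 2 * (8 * d) ^ (q + 1) * (k + 1) ≤ N) :
    (k + 1) * (2 ^ m * (d ^ m * (2 ^ m * m ^ t))) ≤ N ^ t := by
  obtain ⟨s, rfl⟩ : ∃ s, t = s + 1 := ⟨t - 1, by omega⟩
  have h1 : (2 * (8 * d) ^ (q + 1) * (k + 1)) ^ (s + 1) ≤ N ^ (s + 1) := Nat.pow_le_pow_left hN _
  refine le_trans ?_ h1
  have h2 : (2 * (8 * d) ^ (q + 1) * (k + 1)) ^ (s + 1) =
      (8 * d) ^ ((q + 1) * (s + 1)) * (2 * (k + 1)) ^ (s + 1) := by
    rw [pow_mul, ← mul_pow]
    congr 1
    ring
  rw [h2]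
  have h3 : (8 * d) ^ m ≤ (8 * d) ^ ((q + 1) * (s + 1)) :=
    Nat.pow_le_pow_right (by omega) hmt
  have h4 : m ^ s ≤ (2 * (k + 1)) ^ s := Nat.pow_le_pow_left (by omega) _
  have h5 : m ≤ 2 ^ m := Nat.lt_two_pow_self.le
  have h8 : (8 : ℕ) ^ m = 2 ^ m * 2 ^ m * 2 ^ m := by
    rw [← mul_pow, ← mul_pow]
    norm_num
  calc (k + 1) * (2 ^ m * (d ^ m * (2 ^ m * m ^ (s + 1)))) =
        (k + 1) * (2 ^ m * d ^ m * 2 ^ m) * (m * m ^ s) := by ring
    _ ≤ (2 * (k + 1)) * (2 ^ m * d ^ m * 2 ^ m) * (2 ^ m * (2 * (k + 1)) ^ s) := by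
        refine Nat.mul_le_mul (Nat.mul_le_mul_right _ (by omega)) (Nat.mul_le_mul h5 h4)
    _ = (8 * d) ^ m * (2 * (k + 1)) ^ (s + 1) := by
        rw [mul_pow 8 d m, h8]
        ring
    _ ≤ _ := Nat.mul_le_mul_right _ h3

/-- Main statement 3 of this file. -/
theorem card_lists (d N : ℕ) (l : List (List ℕ)) (hl : l.Nodup)
    (h : ∀ e ∈ l, e.length ≤ d ∧ ∀ v ∈ e, v < N) : l.length ≤ (N + 1) ^ d := by
  classical
  have h1 : Fintype.card (Fin d → Fin (N + 1)) = (N + 1) ^ d := by
    rw [Fintype.card_fun, Fintype.card_fin, Fintype.card_fin]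
  rw [← List.toFinset_card_of_nodup hl, ← h1, ← Finset.card_univ]
  refine Finset.card_le_card_of_injOn (fun e => fun i : Fin d =>
    (⟨min (e.getD i N) N, by omega⟩ : Fin (N + 1)))
    (fun _ _ => Finset.mem_coe.2 (Finset.mem_univ _)) ?_
  have key : ∀ e ∈ l, ∀ e' ∈ l, (∀ i : Fin d, min (e.getD i N) N = min (e'.getD i N) N) →
      ∀ i : ℕ, ∀ v : ℕ, e[i]? = some v → e'[i]? = some v := by
    intro e he e' he' hee i v hv
    obtain ⟨h2, h3⟩ := h e he
    obtain ⟨h2', h3'⟩ := h e' he'
    obtain ⟨hi, hiv⟩ := List.getElem?_eq_some_iff.1 hv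
    have h4 : v < N := h3 v (hiv ▸ List.getElem_mem hi)
    have h5 := hee ⟨i, by omega⟩
    have h6 : e.getD i N = v := by
      rw [List.getD_eq_getElem?_getD, hv]
      rfl
    simp only [h6] at h5
    rw [List.getD_eq_getElem?_getD] at h5
    rcases ho : e'[i]? with _ | v'
    · rw [ho] at h5
      simp only [Option.getD_none] at h5
      omega
    · rw [ho] at h5
      simp only [Option.getD_some] at h5
      have h7 : v' < N := h3' v' (List.mem_of_getElem? ho)
      congr 1
      omega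
  intro e he e' he' hee
  have he1 : e ∈ l := List.mem_toFinset.1 he
  have he1' : e' ∈ l := List.mem_toFinset.1 he'
  have h2 : ∀ i : Fin d, min (e.getD i N) N = min (e'.getD i N) N := fun i => by
    have := congrFun hee i
    exact congrArg Fin.val this
  apply List.ext_getElem?
  intro i
  rcases ho : e[i]? with _ | v
  · rcases ho' : e'[i]? with _ | v'
    · rfl
    · have := key e' he1' e he1 (fun i => (h2 i).symm) i v' ho'
      rw [ho] at this
      exact absurd this (by simp)
  · exact (key e he1 e' he1' h2 i v ho).symm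

end Pool.Agent.Helper650_Lin

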