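import Pool.Agent.Helper650_HSK.KernelPoly

/-!
# Random projections of hypergraphs: definitions
-/

namespace Pool.Agent.Helper650_Lin

open Pool.Agent.NPC Pool.Agent.Helper650_HSK

/-- the vertices which occur in the edges -/
def vl (E : List (List ℕ)) : List ℕ := E.flatten.dedup

/-- the cell of the vertex `v` under the map given by the list `c` of its values on `vl E` -/
def cell (E : List (List ℕ)) (c : List ℕ) (v : ℕ) : ℕ := c.getD ((vl E).idxOf v) 0

/-- the projected edges -/
def proj (E : List (List ℕ)) (c : List ℕ) : List (List ℕ) :=
  (E.map (fun e => (e.map (cell E c)).dedup)).dedup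

/-- the reduction, for the instance `z.1` and the map `z.2` -/
def linK (C : ℕ) (z : Inst × List ℕ) : Inst :=
  ((2 * C * (z.1.2 + 1), proj z.1.1.2 z.2), z.1.2)

/-- go through the edges and choose a vertex `v` with `f v ∈ X` from every edge which is not met by
the vertices chosen before -/
def liftF (f : ℕ → ℕ) (E : List (List ℕ)) (X : List ℕ) : List ℕ :=
  E.foldl (fun P e => bif e.any (fun v => decide (v ∈ P)) then P else
    (e.filter (fun v => decide (f v ∈ X))).headD 0 :: P) []

/-- the lifting of solutions, for the instance `z.1.1`, the map `z.1.2` and the solution `z.2` -/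
def linL (z : (Inst × List ℕ) × List ℕ) : List ℕ :=
  liftF (cell z.1.1.1.2 z.1.2) z.1.1.1.2 z.2

/-- the first edge which is not met by `P` (or the empty list) -/
def fu (E : List (List ℕ)) (P : List ℕ) : List ℕ :=
  (E.find? (fun e => !e.any (fun v => decide (v ∈ P)))).getD []

/-- the branching paths with `m` steps -/
def paths (E : List (List ℕ)) : ℕ → List (List ℕ)
  | 0 => [[]]
  | m + 1 => (paths E m).flatMap (fun P => (fu E P).map (fun v => v :: P))

end Pool.Agent.Helper650_Lin
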