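import Pool.Agent.Helper650_Lin.Defs

/-!
# Branching paths

Part 1: `fu E P` is a member of `E` or empty, so it has length at most `d`.  Part 2: a member of
`fu E P` is not in `P`.  Part 3: `v :: P ∈ paths E (m+1)` implies `P ∈ paths E m`; so take for `Q` the suffix of
`P` of length `j`.  Part 4: go through `E = E₁ ++ E₂`; after `E₁` the list `P` is in `paths E P.length`, all edges
of `E₁` are met by `P`, and `f v ∈ X` for all `v ∈ P`.  If the next edge `e` is met by `P` nothing changes,
otherwise `e` is the first edge of `E` not met by `P`, so `fu E P = e`, and the filtered list is not empty by `hX`.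
-/

namespace Pool.Agent.Helper650_Lin

theorem p161_fu_cases (E : List (List ℕ)) (P : List ℕ) :
    fu E P = [] ∨ (fu E P ∈ E ∧ ∀ v ∈ fu E P, v ∉ P) := by
  unfold fu
  cases h : E.find? (fun e => !e.any (fun v => decide (v ∈ P))) with
  | none => exact Or.inl rfl
  | some e =>
    right
    simp only [Option.getD_some]
    refine ⟨List.mem_of_find?_eq_some h, fun v hv hvP => ?_⟩
    have h1 := List.find?_some h
    simp only [Bool.not_eq_true', List.any_eq_false, decide_eq_true_eq] at h1
    exact h1 v hv hvP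

/-- Main statement 1 of this file. -/
theorem length_paths (d : ℕ) (E : List (List ℕ)) (hE : ∀ e ∈ E, e.length ≤ d) (m : ℕ) :
    (paths E m).length ≤ d ^ m := by
  induction m with
  | zero => simp [paths]
  | succ m ih =>
    rw [paths, List.length_flatMap]
    have h1 : ((paths E m).map (fun P => ((fu E P).map (fun v => v :: P)).length)).sum ≤
        ((paths E m).map (fun P => ((fu E P).map (fun v => v :: P)).length)).length • d := by
      refine List.sum_le_card_nsmul _ _ ?_
      intro x hx
      obtain ⟨P, -, rfl⟩ := List.mem_map.1 hx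
      rw [List.length_map]
      rcases p161_fu_cases E P with h | h
      · rw [h]; simp
      · exact hE _ h.1
    rw [List.length_map, smul_eq_mul] at h1
    calc _ ≤ (paths E m).length * d := h1
      _ ≤ d ^ m * d := Nat.mul_le_mul_right d ih
      _ = d ^ (m + 1) := (pow_succ d m).symm

theorem p161_mem_succ (E : List (List ℕ)) (m : ℕ) (P : List ℕ) :
    P ∈ paths E (m + 1) ↔ ∃ Q ∈ paths E m, ∃ v ∈ fu E Q, P = v :: Q := by
  rw [paths, List.mem_flatMap]
  constructor
  · rintro ⟨Q, hQ, h⟩
    obtain ⟨v, hv, rfl⟩ := List.mem_map.1 h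
    exact ⟨Q, hQ, v, hv, rfl⟩
  · rintro ⟨Q, hQ, v, hv, rfl⟩
    exact ⟨Q, hQ, List.mem_map.2 ⟨v, hv, rfl⟩⟩

/-- Main statement 2 of this file. -/
theorem mem_paths (E : List (List ℕ)) (m : ℕ) (P : List ℕ) (hP : P ∈ paths E m) :
    P.length = m ∧ P.Nodup ∧ ∀ v ∈ P, v ∈ vl E := by
  induction m generalizing P with
  | zero =>
    rw [paths, List.mem_singleton] at hP
    subst hP
    simp
  | succ m ih =>
    obtain ⟨Q, hQ, v, hv, rfl⟩ := (p161_mem_succ E m P).1 hP
    obtain ⟨h1, h2, h3⟩ := ih Q hQ
    rcases p161_fu_cases E Q with h | h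
    · rw [h] at hv
      exact absurd hv List.not_mem_nil
    · refine ⟨by rw [List.length_cons, h1], List.nodup_cons.2 ⟨h.2 v hv, h2⟩, ?_⟩
      intro w hw
      rcases List.mem_cons.1 hw with rfl | hw
      · rw [vl, List.mem_dedup, List.mem_flatten]
        exact ⟨_, h.1, hv⟩
      · exact h3 w hw

/-- Main statement 3 of this file. -/
theorem prefix_paths (E : List (List ℕ)) (m j : ℕ) (hj : j ≤ m) (P : List ℕ)
    (hP : P ∈ paths E m) : ∃ Q ∈ paths E j, ∀ v ∈ Q, v ∈ P := by
  induction m generalizing P with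
  | zero =>
    obtain rfl : j = 0 := by omega
    exact ⟨P, hP, fun v hv => hv⟩
  | succ m ih =>
    rcases Nat.eq_or_lt_of_le hj with rfl | h
    · exact ⟨P, hP, fun v hv => hv⟩
    · obtain ⟨Q, hQ, v, -, rfl⟩ := (p161_mem_succ E m P).1 hP
      obtain ⟨R, hR, h1⟩ := ih (by omega) Q hQ
      exact ⟨R, hR, fun w hw => List.mem_cons_of_mem _ (h1 w hw)⟩

theorem p161_find (E₁ E₂ : List (List ℕ)) (e : List ℕ) (P : List ℕ)
    (h1 : ∀ e' ∈ E₁, ∃ v ∈ e', v ∈ P) (h2 : ∀ v ∈ e, v ∉ P) : fu (E₁ ++ e :: E₂) P = e := by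
  unfold fu
  rw [List.find?_append]
  have h3 : E₁.find? (fun e => !e.any (fun v => decide (v ∈ P))) = none := by
    rw [List.find?_eq_none]
    intro e' he'
    obtain ⟨v, hv, hvP⟩ := h1 e' he'
    simp only [Bool.not_eq_true, Bool.not_eq_false', List.any_eq_true, decide_eq_true_eq]
    exact ⟨v, hv, hvP⟩
  have h4 : (e :: E₂).find? (fun e => !e.any (fun v => decide (v ∈ P))) = some e := by
    rw [List.find?_cons_of_pos]
    simp only [Bool.not_eq_true', List.any_eq_false, decide_eq_true_eq]
    exact h2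
  rw [h3, h4]
  rfl

theorem p161_lift (f : ℕ → ℕ) (E : List (List ℕ)) (X : List ℕ)
    (hX : ∀ e ∈ E, ∃ v ∈ e, f v ∈ X) (E₁ : List (List ℕ)) : ∀ E₂, E = E₁ ++ E₂ →
    liftF f E₁ X ∈ paths E (liftF f E₁ X).length ∧ (∀ v ∈ liftF f E₁ X, f v ∈ X) ∧
      ∀ e ∈ E₁, ∃ v ∈ e, v ∈ liftF f E₁ X := by
  induction E₁ using List.reverseRecOn with
  | nil =>
    intro E₂ _
    refine ⟨?_, ?_, ?_⟩
    · simp [liftF, paths]
    · simp [liftF]
    · simp
  | append_singleton E₁ e ih =>
    intro E₂ hE
    have hE' : E = E₁ ++ e :: E₂ := by rw [hE, List.append_assoc]; rfl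
    obtain ⟨a1, a2, a3⟩ := ih (e :: E₂) hE'
    have hstep : liftF f (E₁ ++ [e]) X = bif e.any (fun v => decide (v ∈ liftF f E₁ X)) then
        liftF f E₁ X else (e.filter (fun v => decide (f v ∈ X))).headD 0 :: liftF f E₁ X := by
      unfold liftF
      rw [List.foldl_append]
      rfl
    generalize hP : liftF f E₁ X = P at a1 a2 a3 hstep
    cases hc : e.any (fun v => decide (v ∈ P)) with
    | true =>
      rw [hc, cond_true] at hstep
      rw [hstep]
      refine ⟨a1, a2, ?_⟩
      intro e' he'
      rcases List.mem_append.1 he' with h | h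
      · exact a3 e' h
      · rw [List.mem_singleton] at h
        subst h
        simpa only [List.any_eq_true, decide_eq_true_eq] using hc
    | false =>
      rw [hc, cond_false] at hstep
      simp only [List.any_eq_false, decide_eq_true_eq] at hc
      have hfu : fu E P = e := by
        rw [hE']
        exact p161_find E₁ E₂ e P a3 hc
      obtain ⟨w, hw, hwX⟩ := hX e (by rw [hE']; simp)
      obtain ⟨v, l, hvl⟩ : ∃ v l, e.filter (fun v => decide (f v ∈ X)) = v :: l := by
        cases hf : e.filter (fun v => decide (f v ∈ X)) with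
        | nil =>
          have h1 : w ∈ e.filter (fun v => decide (f v ∈ X)) :=
            List.mem_filter.2 ⟨hw, by simpa using hwX⟩
          rw [hf] at h1
          exact absurd h1 List.not_mem_nil
        | cons v l => exact ⟨v, l, rfl⟩
      have hv : v ∈ e ∧ f v ∈ X := by
        have h1 : v ∈ e.filter (fun v => decide (f v ∈ X)) := by rw [hvl]; simp
        have h2 := List.mem_filter.1 h1
        exact ⟨h2.1, by simpa using h2.2⟩
      rw [hvl, List.headD_cons] at hstep
      rw [hstep]
      refine ⟨?_, ?_, ?_⟩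
      · rw [List.length_cons, p161_mem_succ]
        exact ⟨P, a1, v, by rw [hfu]; exact hv.1, rfl⟩
      · intro x hx
        rcases List.mem_cons.1 hx with rfl | hx
        · exact hv.2
        · exact a2 x hx
      · intro e' he'
        rcases List.mem_append.1 he' with h | h
        · obtain ⟨x, hx, hxP⟩ := a3 e' h
          exact ⟨x, hx, List.mem_cons_of_mem _ hxP⟩
        · rw [List.mem_singleton] at h
          subst h
          exact ⟨v, hv.1, List.mem_cons_self⟩

/-- Main statement 4 of this file. -/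
theorem liftF_spec (f : ℕ → ℕ) (E : List (List ℕ)) (X : List ℕ)
    (hX : ∀ e ∈ E, ∃ v ∈ e, f v ∈ X) :
    liftF f E X ∈ paths E (liftF f E X).length ∧ (∀ v ∈ liftF f E X, f v ∈ X) ∧
      ∀ e ∈ E, ∃ v ∈ e, v ∈ liftF f E X :=
  p161_lift f E X hX E [] (List.append_nil E).symm

end Pool.Agent.Helper650_Lin

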