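import Pool.Agent.Helper650_Lin.Count
import Pool.Agent.Helper650_Lin.Paths

/-!
# Most maps have few collisions on all branching paths

Part 1: `vl E` has no repetitions.  Part 2: for `1 ≤ m ≤ 2 k + 1` let `B m` be the set of the maps
`c` for which some `P ∈ paths E m` has `(q+1) |c(P)| < q m`, and let `B` be the union of the `B m`.  Let
`t = ⌈m / (q+1)⌉ = (m + q) / (q + 1)`, so `1 ≤ t`, `m ≤ (q+1) t`; for `P` as above `(q+1) (m - |c(P)|) > m`, so
`|c(P)| + t ≤ m`.  The members of `P` are `m` distinct vertices in `vl E` (`mem_paths`); so `P` corresponds to a set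
`P'` of `m` indices in `Fin (vl E).length`, and `|c(P)| = |P'.image c|` by Part 1.  By `cnt` and `length_paths`,
`|B m| N^t ≤ d^m 2^m m^t N^n`, so by `num_lin` `(k+1) 2^m |B m| ≤ N^n` (cancel `N^t > 0`), and
`(k+1) |B| ≤ (k+1) ∑_{1 ≤ m ≤ 2k+1} |B m| ≤ N^n ∑ 2^(-m) ≤ N^n`.  For `m = 0` the claim is trivial.
-/

namespace Pool.Agent.Helper650_Lin

theorem h886la_vl_nodup (E : List (List ℕ)) : (vl E).Nodup := List.nodup_dedup _

/-- Main statement 1 of this file. -/
theorem cell_ofFn (E : List (List ℕ)) (N : ℕ) (c : Fin (vl E).length → Fin N)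
    (i : Fin (vl E).length) :
    cell E (List.ofFn (fun i => (c i).val)) ((vl E).get i) = (c i).val := by
  have h : (vl E).idxOf ((vl E).get i) = i.val := by
    have := (h886la_vl_nodup E).idxOf_getElem i.val i.isLt
    simpa using this
  unfold cell
  rw [h]
  simp [List.getD_eq_getElem?_getD]

/-- the index set of a path -/
def h886la_idx (E : List (List ℕ)) (P : List ℕ) : Finset (Fin (vl E).length) :=
  Finset.univ.filter (fun i => (vl E).get i ∈ P)

theorem h886la_idx_image (E : List (List ℕ)) (P : List ℕ) (hP : ∀ v ∈ P, v ∈ vl E) :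
    (h886la_idx E P).image (fun i => (vl E).get i) = P.toFinset := by
  ext v
  simp only [h886la_idx, Finset.mem_image, Finset.mem_filter, Finset.mem_univ, true_and,
    List.mem_toFinset]
  constructor
  · rintro ⟨i, hi, rfl⟩
    exact hi
  · intro hv
    obtain ⟨i, hi⟩ := List.get_of_mem (hP v hv)
    exact ⟨i, by rw [hi]; exact hv, hi⟩

theorem h886la_idx_card (E : List (List ℕ)) (P : List ℕ) (hP : ∀ v ∈ P, v ∈ vl E)
    (hn : P.Nodup) : (h886la_idx E P).card = P.length := by
  have h1 := h886la_idx_image E P hP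
  have h2 : Function.Injective (fun i : Fin (vl E).length => (vl E).get i) :=
    List.nodup_iff_injective_get.1 (h886la_vl_nodup E)
  rw [← List.toFinset_card_of_nodup hn, ← h1, Finset.card_image_of_injective _ h2]

theorem h886la_image_card (E : List (List ℕ)) (N : ℕ) (c : Fin (vl E).length → Fin N)
    (P : List ℕ) (hP : ∀ v ∈ P, v ∈ vl E) :
    (P.toFinset.image (cell E (List.ofFn (fun i => (c i).val)))).card =
      ((h886la_idx E P).image c).card := by
  rw [← h886la_idx_image E P hP, Finset.image_image]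
  have h : (cell E (List.ofFn (fun i => (c i).val))) ∘ (fun i => (vl E).get i) =
      (fun x : Fin N => x.val) ∘ c := by
    funext i
    exact cell_ofFn E N c i
  rw [h, ← Finset.image_image, Finset.card_image_of_injective _ Fin.val_injective]

/-- the bad set of a path -/
def h886la_bad (E : List (List ℕ)) (N q m : ℕ) (P : List ℕ) :
    Finset (Fin (vl E).length → Fin N) :=
  Finset.univ.filter (fun c => ((h886la_idx E P).image c).card + (m + q) / (q + 1) ≤
    (h886la_idx E P).card)

/-- the bad set of all paths of a length -/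
def h886la_badm (E : List (List ℕ)) (N q m : ℕ) : Finset (Fin (vl E).length → Fin N) :=
  (paths E m).toFinset.biUnion (fun P => h886la_bad E N q m P)

theorem h886la_badm_card (d q k N : ℕ) (hd : 1 ≤ d) (E : List (List ℕ))
    (hE : ∀ e ∈ E, e.length ≤ d) (hN : 2 * (8 * d) ^ (q + 1) * (k + 1) ≤ N) (m : ℕ)
    (hm1 : 1 ≤ m) (hm : m ≤ 2 * k + 1) :
    (k + 1) * (2 ^ m * (h886la_badm E N q m).card) ≤ N ^ (vl E).length := by
  have hN0 : 0 < N := by
    have : 0 < 2 * (8 * d) ^ (q + 1) * (k + 1) := by positivity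
    omega
  obtain ⟨t, ht⟩ : ∃ t, t = (m + q) / (q + 1) := ⟨_, rfl⟩
  have ht1 : 1 ≤ t := by
    rw [ht]
    exact (Nat.one_le_div_iff (by omega)).2 (by omega)
  have hmt : m ≤ (q + 1) * t := by
    have h1 := Nat.div_add_mod (m + q) (q + 1)
    have h2 := Nat.mod_lt (m + q) (show 0 < q + 1 by omega)
    rw [← ht] at h1
    omega
  have h1 : ∀ P ∈ (paths E m).toFinset, (h886la_bad E N q m P).card * N ^ t ≤
      2 ^ m * m ^ t * N ^ (vl E).length := by
    intro P hP
    obtain ⟨hl, hnd, hmem⟩ := mem_paths E m P (List.mem_toFinset.1 hP)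
    have h := cnt (vl E).length N t (h886la_idx E P)
    have hc : (h886la_idx E P).card = m := by rw [h886la_idx_card E P hmem hnd, hl]
    rw [hc] at h
    unfold h886la_bad
    rw [hc, ← ht]
    exact h
  have h2 : (h886la_badm E N q m).card * N ^ t ≤ d ^ m * (2 ^ m * m ^ t * N ^ (vl E).length) := by
    calc (h886la_badm E N q m).card * N ^ t
        ≤ (∑ P ∈ (paths E m).toFinset, (h886la_bad E N q m P).card) * N ^ t :=
          Nat.mul_le_mul_right _ Finset.card_biUnion_le
      _ = ∑ P ∈ (paths E m).toFinset, (h886la_bad E N q m P).card * N ^ t := Finset.sum_mul _ _ _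
      _ ≤ ∑ _P ∈ (paths E m).toFinset, 2 ^ m * m ^ t * N ^ (vl E).length := Finset.sum_le_sum h1
      _ = (paths E m).toFinset.card * (2 ^ m * m ^ t * N ^ (vl E).length) := by
          rw [Finset.sum_const, smul_eq_mul]
      _ ≤ d ^ m * (2 ^ m * m ^ t * N ^ (vl E).length) :=
          Nat.mul_le_mul_right _ ((List.toFinset_card_le _).trans (length_paths d E hE m))
  have h3 := num_lin d q k N m t hd ht1 hm hmt hN
  have hNt : 0 < N ^ t := pow_pos hN0 _
  refine Nat.le_of_mul_le_mul_right (c := N ^ t) ?_ hNt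
  calc (k + 1) * (2 ^ m * (h886la_badm E N q m).card) * N ^ t
      = (k + 1) * 2 ^ m * ((h886la_badm E N q m).card * N ^ t) := by ring
    _ ≤ (k + 1) * 2 ^ m * (d ^ m * (2 ^ m * m ^ t * N ^ (vl E).length)) :=
        Nat.mul_le_mul_left _ h2
    _ = ((k + 1) * (2 ^ m * (d ^ m * (2 ^ m * m ^ t)))) * N ^ (vl E).length := by ring
    _ ≤ N ^ t * N ^ (vl E).length := Nat.mul_le_mul_right _ h3
    _ = N ^ (vl E).length * N ^ t := by ring

theorem h886la_sum (K X : ℕ) (S : ℕ → ℕ) (R : ℕ)
    (hS : ∀ m, 1 ≤ m → m ≤ R → K * (2 ^ m * S m) ≤ X) (M : ℕ) (hM : M ≤ R) :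
    2 ^ M * (K * ∑ m ∈ Finset.Icc 1 M, S m) + X ≤ 2 ^ M * X := by
  induction M with
  | zero => simp
  | succ M ih =>
    have h1 := ih (by omega)
    have h2 := hS (M + 1) (by omega) hM
    rw [Finset.sum_Icc_succ_top (by omega)]
    have h3 : 2 ^ (M + 1) * (K * (∑ m ∈ Finset.Icc 1 M, S m + S (M + 1))) =
        2 * (2 ^ M * (K * ∑ m ∈ Finset.Icc 1 M, S m)) + K * (2 ^ (M + 1) * S (M + 1)) := by
      ring
    have h4 : 2 ^ (M + 1) * X = 2 * (2 ^ M * X) := by ring
    rw [h3, h4]
    omega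

/-- Main statement 2 of this file. -/
theorem bad_card (d q k N : ℕ) (hd : 1 ≤ d) (E : List (List ℕ)) (hE : ∀ e ∈ E, e.length ≤ d)
    (hN : 2 * (8 * d) ^ (q + 1) * (k + 1) ≤ N) :
    ∃ B : Finset (Fin (vl E).length → Fin N), (k + 1) * B.card ≤ N ^ (vl E).length ∧
      ∀ c ∉ B, ∀ m ≤ 2 * k + 1, ∀ P ∈ paths E m,
        q * m ≤ (q + 1) *
          (P.toFinset.image (cell E (List.ofFn (fun i => (c i).val)))).card := by
  refine ⟨(Finset.Icc 1 (2 * k + 1)).biUnion (fun m => h886la_badm E N q m), ?_, ?_⟩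
  · have h := h886la_sum (k + 1) (N ^ (vl E).length) (fun m => (h886la_badm E N q m).card)
      (2 * k + 1) (fun m h1 h2 => h886la_badm_card d q k N hd E hE hN m h1 h2) (2 * k + 1) le_rfl
    have h' : 2 ^ (2 * k + 1) * ((k + 1) * ∑ m ∈ Finset.Icc 1 (2 * k + 1),
        (h886la_badm E N q m).card) ≤ 2 ^ (2 * k + 1) * N ^ (vl E).length :=
      le_trans (Nat.le_add_right _ _) h
    have h2 := Nat.le_of_mul_le_mul_left h' (by positivity)
    exact le_trans (Nat.mul_le_mul_left _ Finset.card_biUnion_le) h2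
  · intro c hc m hm P hP
    rcases Nat.eq_zero_or_pos m with h0 | hpos
    · subst h0
      simp
    · obtain ⟨hl, hnd, hmem⟩ := mem_paths E m P hP
      rw [h886la_image_card E N c P hmem]
      by_contra hcon
      push Not at hcon
      apply hc
      rw [Finset.mem_biUnion]
      refine ⟨m, Finset.mem_Icc.2 ⟨hpos, hm⟩, ?_⟩
      unfold h886la_badm
      rw [Finset.mem_biUnion]
      refine ⟨P, List.mem_toFinset.2 hP, ?_⟩
      unfold h886la_bad
      rw [Finset.mem_filter]
      refine ⟨Finset.mem_univ _, ?_⟩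
      rw [h886la_idx_card E P hmem hnd, hl]
      obtain ⟨a, ha⟩ : ∃ a, a = ((h886la_idx E P).image c).card := ⟨_, rfl⟩
      obtain ⟨t, ht⟩ : ∃ t, t = (m + q) / (q + 1) := ⟨_, rfl⟩
      rw [← ha] at hcon ⊢
      rw [← ht]
      have h1 : (q + 1) * t ≤ m + q := by
        rw [ht]
        exact Nat.mul_div_le _ _
      have h2 : (q + 1) * (a + t) < (q + 1) * (m + 1) := by
        nlinarith
      have h3 := Nat.lt_of_mul_lt_mul_left h2
      omega

end Pool.Agent.Helper650_Lin

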