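import Pool.Agent.Helper650_Lin.Defs

/-!
# Polynomial time

As in `Pool/Agent/Helper650_HSK/KernelPoly.lean` (`poly_idxOf`, `poly_greedy`), see also
`Pool/Agent/H671R2/PolyAuto.lean`; `R544.poly_dedup` for `dedup`.  For `liftF` use the fold lemma (as for
`poly_greedy`); the accumulated list has at most one member for each edge, which is `0` or a member of the
edge, so its size is bounded by a polynomial in the size of the list of edges.
-/

namespace Pool.Agent.Helper650_Lin

open Pool.Agent.NPC Pool.Agent.Helper650_HSK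

/-- Main statement 1 of this file. -/
theorem poly_cell {α : Type} [TEnc α] {E : α → List (List ℕ)} {c : α → List ℕ} {v : α → ℕ}
    (hE : Poly E) (hc : Poly c) (hv : Poly v) : Poly (fun a => cell (E a) (c a) (v a)) := by
  unfold cell vl
  exact Poly.getD hc (poly_idxOf (R544.poly_dedup (Poly.flatten hE)) hv) (NPC.Poly.const 0)

theorem h18_poly_proj {α : Type} [TEnc α] {E : α → List (List ℕ)} {c : α → List ℕ}
    (hE : Poly E) (hc : Poly c) : Poly (fun a => proj (E a) (c a)) := by
  unfold proj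
  refine R544.poly_dedup ?_
  refine NPC.Poly.map (F := fun a (e : List ℕ) => (e.map (cell (E a) (c a))).dedup) hE ?_
  refine R544.poly_dedup ?_
  refine NPC.Poly.map (α := α × List ℕ) (l := fun p => p.2)
    (F := fun p v => cell (E p.1) (c p.1) v) (NPC.Poly.snd NPC.Poly.id) ?_
  exact poly_cell (hE.comp (NPC.Poly.fst (NPC.Poly.fst NPC.Poly.id)))
    (hc.comp (NPC.Poly.fst (NPC.Poly.fst NPC.Poly.id))) (NPC.Poly.snd NPC.Poly.id)

/-- Main statement 2 of this file. -/
theorem poly_linK (C : ℕ) : Poly (linK C) := by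
  unfold linK
  have hk : Poly (fun z : Inst × List ℕ => z.1.2) := NPC.Poly.snd (NPC.Poly.fst NPC.Poly.id)
  refine Poly.pair (Poly.pair (Poly.mul (NPC.Poly.const (2 * C)) (Poly.succ hk)) ?_) hk
  exact h18_poly_proj (NPC.Poly.snd (NPC.Poly.fst (NPC.Poly.fst NPC.Poly.id)))
    (NPC.Poly.snd NPC.Poly.id)

theorem h18_sz_headD (l : List ℕ) (e : List ℕ) (h : ∀ v ∈ l, v ∈ e) : sz (l.headD 0) ≤ sz e := by
  cases l with
  | nil =>
    have h0 : sz (([] : List ℕ).headD 0) = 1 := rfl
    rw [h0]
    exact sz_pos e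
  | cons v l => exact (sz_le_of_mem (h v List.mem_cons_self)).le

theorem h18_sz_lift (f : ℕ → ℕ) (X : List ℕ) (E : List (List ℕ)) : ∀ P : List ℕ,
    sz (E.foldl (fun P e => bif e.any (fun v => decide (v ∈ P)) then P else
      (e.filter (fun v => decide (f v ∈ X))).headD 0 :: P) P) + 1 ≤ sz E + sz P := by
  induction E with
  | nil =>
    intro P
    rw [List.foldl_nil, sz_list_nil]
    omega
  | cons e E ih =>
    intro P
    rw [List.foldl_cons]
    refine (ih _).trans ?_
    rw [sz_list_cons]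
    cases e.any (fun v => decide (v ∈ P)) with
    | true =>
      rw [cond_true]
      omega
    | false =>
      rw [cond_false, sz_list_cons]
      have := h18_sz_headD (e.filter (fun v => decide (f v ∈ X))) e
        (fun v hv => (List.mem_filter.1 hv).1)
      omega

/-- Main statement 3 of this file. -/
theorem poly_linL : Poly linL := by
  unfold linL liftF
  have hE : Poly (fun z : (Inst × List ℕ) × List ℕ => z.1.1.1.2) :=
    NPC.Poly.snd (NPC.Poly.fst (NPC.Poly.fst (NPC.Poly.fst NPC.Poly.id)))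
  have hc : Poly (fun z : (Inst × List ℕ) × List ℕ => z.1.2) :=
    NPC.Poly.snd (NPC.Poly.fst NPC.Poly.id)
  obtain ⟨r, hr⟩ := hE.sz_le
  refine Poly.foldl (s := fun _ => [])
    (F := fun (z : (Inst × List ℕ) × List ℕ) (P : List ℕ) (e : List ℕ) =>
      bif e.any (fun v => decide (v ∈ P)) then P else
      (e.filter (fun v => decide (cell z.1.1.1.2 z.1.2 v ∈ z.2))).headD 0 :: P)
    hE (NPC.Poly.const _) ?_ r ?_
  · have hP : Poly (fun p : ((Inst × List ℕ) × List ℕ) × List ℕ × List ℕ => p.2.1) :=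
      NPC.Poly.fst (NPC.Poly.snd NPC.Poly.id)
    have he : Poly (fun p : ((Inst × List ℕ) × List ℕ) × List ℕ × List ℕ => p.2.2) :=
      NPC.Poly.snd (NPC.Poly.snd NPC.Poly.id)
    refine Poly.cond ?_ hP (NPC.Poly.cons ?_ hP)
    · refine Poly.any (l := fun p : ((Inst × List ℕ) × List ℕ) × List ℕ × List ℕ => p.2.2)
        (p := fun p v => decide (v ∈ p.2.1)) he ?_
      exact Poly.decide_mem (NPC.Poly.snd NPC.Poly.id)
        (NPC.Poly.fst (NPC.Poly.snd (NPC.Poly.fst NPC.Poly.id)))
    · have hf : Poly (fun p : ((Inst × List ℕ) × List ℕ) × List ℕ × List ℕ =>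
          p.2.2.filter (fun v => decide (cell p.1.1.1.1.2 p.1.1.2 v ∈ p.1.2))) := by
        refine Poly.filter (p := fun (p : ((Inst × List ℕ) × List ℕ) × List ℕ × List ℕ) v =>
          decide (cell p.1.1.1.1.2 p.1.1.2 v ∈ p.1.2)) he ?_
        refine Poly.decide_mem (poly_cell ?_ ?_ (NPC.Poly.snd NPC.Poly.id)) ?_
        · exact hE.comp (NPC.Poly.fst (NPC.Poly.fst NPC.Poly.id))
        · exact hc.comp (NPC.Poly.fst (NPC.Poly.fst NPC.Poly.id))
        · exact NPC.Poly.snd (NPC.Poly.fst (NPC.Poly.fst NPC.Poly.id))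
      refine (NPC.Poly.head?_getD hf 0).congr fun p => ?_
      rw [List.headD_eq_head?_getD]
  · intro z k _
    have h1 := h18_sz_lift (cell z.1.1.1.2 z.1.2) z.2 (z.1.1.1.2.take k) []
    rw [sz_list_nil] at h1
    exact (Nat.le_of_add_le_add_right h1).trans ((Poly.sz_take_le _ _).trans (hr z))

end Pool.Agent.Helper650_Lin

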