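import Pool.Agent.Helper650_Lin.Defs

/-!
# The projected hypergraph
-/

namespace Pool.Agent.Helper650_Lin

open Pool.Agent.NPC Pool.Agent.Helper650_HSK

/-- auxiliary: the value of a cell is below `N` -/
theorem h516_cell_lt (N : ℕ) (E : List (List ℕ)) (c : List ℕ) (hN : 1 ≤ N)
    (hc : ∀ a ∈ c, a < N) (v : ℕ) : cell E c v < N := by
  unfold cell
  rw [List.getD_eq_getElem?_getD]
  rcases h : (getElem? c ((vl E).idxOf v)) with _ | a
  · simp only [Option.getD_none]; omega
  · simp only [Option.getD_some]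
    exact hc a (List.mem_of_getElem? h)

/-- auxiliary: the members of the projected edge list -/
theorem h516_mem_proj (E : List (List ℕ)) (c : List ℕ) (e' : List ℕ) :
    e' ∈ proj E c ↔ ∃ e ∈ E, (e.map (cell E c)).dedup = e' := by
  unfold proj
  rw [List.mem_dedup, List.mem_map]

/-- Main statement 1 of this file. -/
theorem proj_hyp (d N : ℕ) (E : List (List ℕ)) (c : List ℕ) (hN : 1 ≤ N)
    (hc : ∀ a ∈ c, a < N) (hE : ∀ e ∈ E, e ≠ [] ∧ e.length ≤ d) : IsHyp d (N, proj E c) := by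
  intro e' he'
  obtain ⟨e, he, rfl⟩ := (h516_mem_proj E c e').1 he'
  obtain ⟨hne, hlen⟩ := hE e he
  refine ⟨?_, List.nodup_dedup _, ?_, ?_⟩
  · obtain ⟨v, hv⟩ := List.exists_mem_of_ne_nil e hne
    apply List.ne_nil_of_mem (a := cell E c v)
    rw [List.mem_dedup, List.mem_map]
    exact ⟨v, hv, rfl⟩
  · refine le_trans (List.Sublist.length_le (List.dedup_sublist _)) ?_
    rw [List.length_map]
    exact hlen
  · intro w hw
    rw [List.mem_dedup, List.mem_map] at hw
    obtain ⟨v, _, rfl⟩ := hw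
    exact h516_cell_lt N E c hN hc v

/-- Main statement 2 of this file. -/
theorem proj_forward (E : List (List ℕ)) (c : List ℕ) (S : Finset ℕ) (hS : Hits S E) :
    Hits (S.image (cell E c)) (proj E c) := by
  intro e' he'
  obtain ⟨e, he, rfl⟩ := (h516_mem_proj E c e').1 he'
  obtain ⟨v, hv, hvS⟩ := hS e he
  refine ⟨cell E c v, ?_, Finset.mem_image_of_mem _ hvS⟩
  rw [List.mem_dedup, List.mem_map]
  exact ⟨v, hv, rfl⟩

/-- Main statement 3 of this file. -/
theorem proj_backward (E : List (List ℕ)) (c X : List ℕ) (hX : Hits X.toFinset (proj E c)) :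
    ∀ e ∈ E, ∃ v ∈ e, cell E c v ∈ X := by
  intro e he
  obtain ⟨w, hw, hwX⟩ := hX _ ((h516_mem_proj E c _).2 ⟨e, he, rfl⟩)
  rw [List.mem_dedup, List.mem_map] at hw
  obtain ⟨v, hv, rfl⟩ := hw
  exact ⟨v, hv, List.mem_toFinset.1 hwX⟩

end Pool.Agent.Helper650_Lin

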