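import Pool.Agent.Helper650_Lin.Good
import Pool.Agent.Helper650_Lin.Proj
import Pool.Agent.Helper650_Lin.PolyP
import Pool.Agent.Helper650_HSK.Prm

/-!
# Linear lossy kernels by random projections
-/

namespace Pool.Agent.Helper650_Lin

open Pool.Agent.NPC Pool.Agent.Helper650_HSK

theorem cell_lt (E : List (List ℕ)) (c : List ℕ) (N v : ℕ) (hN : 1 ≤ N) (hc : ∀ a ∈ c, a < N) :
    cell E c v < N := by
  unfold cell
  by_cases h : (vl E).idxOf v < c.length
  · rw [List.getD_eq_getElem _ _ h]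
    exact hc _ (List.getElem_mem h)
  · rw [List.getD_eq_default _ _ (by omega)]
    exact hN

theorem main_lin (d : ℕ) (hd : 1 ≤ d) (ε : ℝ) (hε : 0 < ε) :
    ∃ (K L : List Bool → List Bool) (C : ℕ) (h : Polynomial ℕ), PolyTime K ∧ PolyTime L ∧
      ∀ x : Inst, IsHyp d x.1 → ∀ N : ℕ, C * (x.2 + 1) ≤ N → N ≤ 2 * C * (x.2 + 1) →
        ∃ B : Finset (Fin (vl x.1.2).length → Fin N),
          (x.2 + 1) * B.card ≤ N ^ (vl x.1.2).length ∧
          ∀ c : Fin (vl x.1.2).length → Fin N, ∃ y : Inst,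
            K (bits (x, List.ofFn (fun i => (c i).val))) = bits y ∧ IsHyp d y.1 ∧ y.2 = x.2 ∧
            y.1.1 = 2 * C * (x.2 + 1) ∧ y.1.2.length ≤ (y.1.1 + 1) ^ d ∧
            (bits y).length ≤ h.eval x.2 ∧
            (∀ S : Finset ℕ, Hits S x.1.2 →
              ∃ X ⊆ Finset.range y.1.1, Hits X y.1.2 ∧ X.card ≤ S.card) ∧
            ∀ X : List ℕ, Hits X.toFinset y.1.2 →
              ∃ S : List ℕ, L (bits ((x, List.ofFn (fun i => (c i).val)), X)) = bits S ∧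
                S.Nodup ∧ (∀ v ∈ S, v < x.1.1) ∧ Hits S.toFinset x.1.2 ∧
                (c ∉ B → X.length ≤ x.2 → (S.length : ℝ) ≤ (1 + ε) * X.length) := by
  obtain ⟨q, hq1, hqε⟩ : ∃ q : ℕ, 1 ≤ q ∧ 1 ≤ ε * q := by
    obtain ⟨m, hm⟩ := exists_nat_ge (1 / ε)
    refine ⟨m + 1, by omega, ?_⟩
    have h1 : 1 ≤ ε * m := by
      rw [mul_comm]
      exact (div_le_iff₀ hε).1 hm
    push_cast
    nlinarith
  obtain ⟨C, hC⟩ : ∃ C, C = 2 * (8 * d) ^ (q + 1) := ⟨_, rfl⟩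
  have hC1 : 1 ≤ C := by
    have : 1 ≤ (8 * d) ^ (q + 1) := Nat.one_le_pow _ _ (by omega)
    omega
  obtain ⟨r, hr⟩ := length_bits_le d
  have hPK := poly_linK C
  have hPL := poly_linL
  refine ⟨_, _, C, r.comp (Polynomial.C (2 * C) * (Polynomial.X + 1) +
      (Polynomial.C (2 * C) * (Polynomial.X + 1) + 1) ^ d + Polynomial.X),
    polyTime_opt (NPC.Poly.optMap (o := unbits (Inst × List ℕ))
      (f := fun _ a => linK C a) poly_unbits (hPK.comp (NPC.Poly.snd NPC.Poly.id))),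
    polyTime_opt (NPC.Poly.optMap (o := unbits ((Inst × List ℕ) × List ℕ))
      (f := fun _ a => linL a) poly_unbits (hPL.comp (NPC.Poly.snd NPC.Poly.id))), ?_⟩
  intro x hx N hN1 hN2
  obtain ⟨B, hB1, hB2⟩ := bad_card d q x.2 N hd x.1.2 (fun e he => (hx e he).2.2.1)
    (by rw [← hC]; exact hN1)
  refine ⟨B, hB1, ?_⟩
  intro c
  obtain ⟨c', hc'⟩ : ∃ c' : List ℕ, c' = List.ofFn (fun i => (c i).val) := ⟨_, rfl⟩
  have hcN : ∀ a ∈ c', a < N := by
    intro a ha
    rw [hc', List.mem_ofFn] at ha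
    obtain ⟨i, rfl⟩ := ha
    exact (c i).isLt
  have hcM : ∀ a ∈ c', a < 2 * C * (x.2 + 1) := fun a ha => lt_of_lt_of_le (hcN a ha) hN2
  have hM1 : 1 ≤ 2 * C * (x.2 + 1) := Nat.mul_pos (by omega) (by omega)
  have hyp : IsHyp d (2 * C * (x.2 + 1), proj x.1.2 c') :=
    proj_hyp d _ x.1.2 c' hM1 hcM (fun e he => ⟨(hx e he).1, (hx e he).2.2.1⟩)
  have hlen : (proj x.1.2 c').length ≤ (2 * C * (x.2 + 1) + 1) ^ d :=
    card_lists d _ _ (List.nodup_dedup _) (fun e he => ⟨(hyp e he).2.2.1, (hyp e he).2.2.2⟩)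
  have hB2' : c ∉ B → ∀ m ≤ 2 * x.2 + 1, ∀ P ∈ paths x.1.2 m,
      q * m ≤ (q + 1) * (P.toFinset.image (cell x.1.2 c')).card := by
    rw [hc']
    exact hB2 c
  rw [← hc']
  refine ⟨linK C (x, c'), by simp [unbits_bits], hyp, rfl, rfl, hlen, ?_, ?_, ?_⟩
  · refine (hr _ hyp).trans ?_
    rw [Polynomial.eval_comp]
    refine eval_mono r ?_
    simp only [Polynomial.eval_add, Polynomial.eval_mul, Polynomial.eval_pow, Polynomial.eval_C,
      Polynomial.eval_X, Polynomial.eval_one]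
    show 2 * C * (x.2 + 1) + (proj x.1.2 c').length + x.2 ≤ _
    omega
  · intro S hS
    refine ⟨S.image (cell x.1.2 c'), ?_, proj_forward x.1.2 c' S hS, Finset.card_image_le⟩
    intro a ha
    obtain ⟨v, _, rfl⟩ := Finset.mem_image.1 ha
    exact Finset.mem_range.2 (cell_lt _ _ _ _ hM1 hcM)
  · intro X hX
    obtain ⟨P, hP⟩ : ∃ P, P = liftF (cell x.1.2 c') x.1.2 X := ⟨_, rfl⟩
    obtain ⟨p1, p2, p3⟩ := liftF_spec (cell x.1.2 c') x.1.2 X (proj_backward x.1.2 c' X hX)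
    rw [← hP] at p1 p2 p3
    obtain ⟨_, q2, q3⟩ := mem_paths _ _ _ p1
    have hsub : ∀ Q : List ℕ, (∀ v ∈ Q, v ∈ P) →
        (Q.toFinset.image (cell x.1.2 c')).card ≤ X.length := by
      intro Q hQ
      refine le_trans (Finset.card_le_card ?_) (List.toFinset_card_le X)
      intro a ha
      obtain ⟨v, hv, rfl⟩ := Finset.mem_image.1 ha
      exact List.mem_toFinset.2 (p2 v (hQ v (List.mem_toFinset.1 hv)))
    refine ⟨P, by simp [unbits_bits, linL, ← hP], q2, ?_, ?_, ?_⟩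
    · intro v hv
      have h1 := q3 v hv
      rw [vl, List.mem_dedup, List.mem_flatten] at h1
      obtain ⟨e, he, hve⟩ := h1
      exact (hx e he).2.2.2 v hve
    · intro e he
      obtain ⟨v, h1, h2⟩ := p3 e he
      exact ⟨v, h1, List.mem_toFinset.2 h2⟩
    · intro hc hXk
      have key := hB2' hc
      by_cases hlt : P.length ≤ 2 * x.2 + 1
      · have h1 := (key _ hlt P p1).trans (Nat.mul_le_mul_left _ (hsub P (fun v hv => hv)))
        have h2 : (q : ℝ) * P.length ≤ ((q : ℝ) + 1) * X.length := by exact_mod_cast h1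
        have h3 : (0 : ℝ) ≤ (X.length : ℝ) := Nat.cast_nonneg _
        have h4 : (1 : ℝ) ≤ (q : ℝ) := by exact_mod_cast hq1
        have h5 : (q : ℝ) * P.length ≤ q * ((1 + ε) * X.length) := by nlinarith
        exact le_of_mul_le_mul_left h5 (by linarith)
      · exfalso
        obtain ⟨Q, hQ1, hQ2⟩ := prefix_paths x.1.2 P.length (2 * x.2 + 1) (by omega) P p1
        have h1 := (key _ le_rfl Q hQ1).trans (Nat.mul_le_mul_left _ (hsub Q hQ2))
        have h2 : (q + 1) * X.length ≤ (q + 1) * x.2 := Nat.mul_le_mul_left _ hXk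
        nlinarith

end Pool.Agent.Helper650_Lin
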